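import Mathlib

/-!
# Jet graphs of very well covered graphs are very well covered
-/

set_option autoImplicit false

open Finset

namespace Pool.Agent.Results.MP_26e8bc_co.JetsVeryWellCovered

variable {V : Type*}

/-- `S` is an inclusion-maximal independent set of `G`. -/
def IsMaximalIndep (G : SimpleGraph V) (S : Finset V) : Prop :=
  G.IsIndepSet (S : Set V) ∧ ∀ T : Finset V, G.IsIndepSet (T : Set V) → S ⊆ T → T = S

/-- All maximal independent sets have the same size. -/
def IsWellCovered (G : SimpleGraph V) : Prop :=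
  ∀ S T : Finset V, IsMaximalIndep G S → IsMaximalIndep G T → S.card = T.card

/-- `G` has no isolated vertices, is well covered, and `|V| = 2 α(G)`. -/
def IsVeryWellCovered [Fintype V] (G : SimpleGraph V) : Prop :=
  (∀ v, ∃ w, G.Adj v w) ∧ IsWellCovered G ∧ Fintype.card V = 2 * G.indepNum

/-- The graph of `s`-jets: `v_i ~ w_j` iff `v ~ w` and `i + j ≤ s`, for `0 ≤ i, j ≤ s`. -/
def jets (G : SimpleGraph V) (s : ℕ) : SimpleGraph (V × Fin (s + 1)) where
  Adj x y := G.Adj x.1 y.1 ∧ (x.2 : ℕ) + (y.2 : ℕ) ≤ s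
  symm := ⟨fun x y h => ⟨h.1.symm, by have := h.2; omega⟩⟩
  loopless := ⟨fun _ h => h.1.ne rfl⟩

variable [Fintype V]

theorem exists_maximal (G : SimpleGraph V) (A : Finset V) (hA : G.IsIndepSet (A : Set V)) :
    ∃ I : Finset V, IsMaximalIndep G I ∧ A ⊆ I := by
  classical
  obtain ⟨I, hI, hmax⟩ := exists_max_image
    (univ.filter fun X : Finset V => G.IsIndepSet (X : Set V) ∧ A ⊆ X) Finset.card
    ⟨A, mem_filter.2 ⟨mem_univ _, hA, Subset.refl _⟩⟩
  rw [mem_filter] at hI
  refine ⟨I, ⟨hI.2.1, ?_⟩, hI.2.2⟩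
  intro T hT hIT
  exact (eq_of_subset_of_card_le hIT
    (hmax T (mem_filter.2 ⟨mem_univ _, hT, hI.2.2.trans hIT⟩))).symm

theorem maximal_card (G : SimpleGraph V) (h : IsWellCovered G) (S : Finset V)
    (hS : IsMaximalIndep G S) : S.card = G.indepNum := by
  obtain ⟨S₀, hS₀⟩ := G.exists_isNIndepSet_indepNum
  obtain ⟨I, hI, hSI⟩ := exists_maximal G S₀ hS₀.isIndepSet
  have h1 := card_le_card hSI
  have h2 := hI.1.card_le_indepNum
  rw [h S I hS hI]
  rw [hS₀.card_eq] at h1
  omega

open Classical in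
/-- In a well covered graph with no isolated vertex every independent set `A` has
`|A| ≤ |N(A)|`. -/
theorem hall_ineq (G : SimpleGraph V) (h0 : ∀ v, ∃ w, G.Adj v w) (h : IsWellCovered G) :
    ∀ (n : ℕ) (A : Finset V), A.card = n → G.IsIndepSet (A : Set V) →
      A.card ≤ ((univ : Finset V).filter fun w => ∃ a ∈ A, G.Adj a w).card := by
  classical
  intro n
  induction n using Nat.strong_induction_on with
  | _ n ih =>
    intro A hn hA
    rcases A.eq_empty_or_nonempty with rfl | ⟨a, ha⟩
    · simp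
    obtain ⟨y, hy⟩ := h0 a
    obtain ⟨I, hI, hyI⟩ := exists_maximal G {y} (by
      intro u hu v hv huv
      rw [mem_coe, mem_singleton] at hu hv
      exact absurd (hu.trans hv.symm) huv)
    have hyI' : y ∈ I := hyI (mem_singleton_self y)
    set N : Finset V → Finset V := fun B => (univ : Finset V).filter fun w => ∃ a ∈ B, G.Adj a w
      with hN
    have hmemN : ∀ B w, w ∈ N B ↔ ∃ a ∈ B, G.Adj a w := by
      intro B w
      simp [hN]
    show A.card ≤ (N A).card
    have haI : a ∉ I := fun haI => hI.1 (mem_coe.2 haI) (mem_coe.2 hyI') hy.ne hy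
    have hBlt : (A ∩ I).card < n := by
      rw [← hn]
      refine card_lt_card ⟨inter_subset_left, fun hsub => haI (mem_inter.1 (hsub ha)).2⟩
    have hB := ih _ hBlt (A ∩ I) rfl (fun u hu v hv huv =>
      hA (mem_coe.2 (mem_inter.1 (mem_coe.1 hu)).1) (mem_coe.2 (mem_inter.1 (mem_coe.1 hv)).1) huv)
    have hB' : (A ∩ I).card ≤ (N (A ∩ I)).card := hB
    -- the exchanged set
    have hind : G.IsIndepSet (((I \ N A) ∪ A : Finset V) : Set V) := by
      intro u hu v hv huv hadj
      rw [mem_coe, mem_union, mem_sdiff] at hu hv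
      rcases hu with hu | hu <;> rcases hv with hv | hv
      · exact hI.1 (mem_coe.2 hu.1) (mem_coe.2 hv.1) huv hadj
      · exact hu.2 ((hmemN A u).2 ⟨v, hv, hadj.symm⟩)
      · exact hv.2 ((hmemN A v).2 ⟨u, hu, hadj⟩)
      · exact hA (mem_coe.2 hu) (mem_coe.2 hv) huv hadj
    have h1 := hind.card_le_indepNum
    rw [← maximal_card G h I hI] at h1
    -- counting
    have h2 : (I \ N A).card + (A \ I).card ≤ ((I \ N A) ∪ A).card := by
      rw [← card_union_of_disjoint]
      · apply card_le_card
        intro x hx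
        rw [mem_union] at hx ⊢
        rcases hx with hx | hx
        · exact Or.inl hx
        · exact Or.inr (mem_sdiff.1 hx).1
      · rw [disjoint_left]
        intro x hx hx'
        exact (mem_sdiff.1 hx').2 (mem_sdiff.1 hx).1
    have h3 : (I ∩ N A).card + (I \ N A).card = I.card := card_inter_add_card_sdiff _ _
    have h4 : (A ∩ I).card + (A \ I).card = A.card := card_inter_add_card_sdiff _ _
    have h5 : (I ∩ N A).card + (N (A ∩ I)).card ≤ (N A).card := by
      rw [← card_union_of_disjoint]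
      · apply card_le_card
        intro x hx
        rw [mem_union, mem_inter] at hx
        rcases hx with hx | hx
        · exact hx.2
        · obtain ⟨b, hb, hbx⟩ := (hmemN _ _).1 hx
          exact (hmemN _ _).2 ⟨b, (mem_inter.1 hb).1, hbx⟩
      · rw [disjoint_left]
        intro x hx hx'
        obtain ⟨b, hb, hbx⟩ := (hmemN _ _).1 hx'
        exact hI.1 (mem_coe.2 (mem_inter.1 hb).2) (mem_coe.2 (mem_inter.1 hx).1) hbx.ne hbx
    omega

/-- A fixed-point-free involution along edges with Favaron's property (P). -/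
theorem exists_favaron (G : SimpleGraph V) (h : IsVeryWellCovered G) :
    ∃ σ : V → V, (∀ v, σ (σ v) = v) ∧ (∀ v, G.Adj v (σ v)) ∧
      ∀ v a b, G.Adj v a → G.Adj (σ v) b → G.Adj a b := by
  classical
  obtain ⟨h0, hw, hcard⟩ := h
  obtain ⟨S, hS, -⟩ := exists_maximal G ∅ (by simp)
  have hSc : S.card = G.indepNum := maximal_card G hw S hS
  -- Hall
  have hall : ∀ B : Finset S, B.card ≤ (B.biUnion fun s : S =>
      (univ : Finset V).filter fun w => G.Adj s w).card := by
    intro B
    have h1 := hall_ineq G h0 hw _ (B.image (fun s : S => (s : V))) rfl (by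
      intro u hu v hv huv
      rw [mem_coe, mem_image] at hu hv
      obtain ⟨u', -, rfl⟩ := hu
      obtain ⟨v', -, rfl⟩ := hv
      exact hS.1 (mem_coe.2 u'.2) (mem_coe.2 v'.2) huv)
    rw [card_image_of_injective _ Subtype.val_injective] at h1
    refine le_trans h1 (card_le_card ?_)
    intro w hw
    rw [mem_filter] at hw
    obtain ⟨-, a, ha, haw⟩ := hw
    rw [mem_image] at ha
    obtain ⟨s, hs, rfl⟩ := ha
    exact mem_biUnion.2 ⟨s, hs, mem_filter.2 ⟨mem_univ _, haw⟩⟩
  obtain ⟨f, hf, hfadj⟩ := (Finset.all_card_le_biUnion_card_iff_exists_injective _).1 hall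
  have hfadj' : ∀ s : S, G.Adj s (f s) := fun s => (mem_filter.1 (hfadj s)).2
  have hfS : ∀ s : S, f s ∉ S := by
    intro s hs
    exact hS.1 (mem_coe.2 s.2) (mem_coe.2 hs) (hfadj' s).ne (hfadj' s)
  have hsurj : ∀ v, v ∉ S → ∃ s : S, f s = v := by
    have h1 : univ.image f ⊆ Sᶜ := by
      intro x hx
      rw [mem_image] at hx
      obtain ⟨s, -, rfl⟩ := hx
      rw [mem_compl]
      exact hfS s
    have h2 : Sᶜ.card ≤ (univ.image f).card := by
      rw [card_image_of_injective _ hf, card_univ, Fintype.card_coe, card_compl]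
      omega
    have h3 := eq_of_subset_of_card_le h1 h2
    intro v hv
    have : v ∈ univ.image f := by
      rw [h3, mem_compl]
      exact hv
    rw [mem_image] at this
    obtain ⟨s, -, hs⟩ := this
    exact ⟨s, hs⟩
  choose g hg using hsurj
  set σ : V → V := fun v => if hv : v ∈ S then f ⟨v, hv⟩ else (g v hv : V) with hσ
  have hσS : ∀ v (hv : v ∈ S), σ v = f ⟨v, hv⟩ := fun v hv => dif_pos hv
  have hσN : ∀ v (hv : v ∉ S), σ v = g v hv := fun v hv => dif_neg hv
  have hinv : ∀ v, σ (σ v) = v := by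
    intro v
    by_cases hv : v ∈ S
    · rw [hσS v hv, hσN _ (hfS _)]
      have := hf (hg (f ⟨v, hv⟩) (hfS _))
      rw [this]
    · rw [hσN v hv, hσS _ (g v hv).2]
      exact hg v hv
  have hadj : ∀ v, G.Adj v (σ v) := by
    intro v
    by_cases hv : v ∈ S
    · rw [hσS v hv]
      exact hfadj' ⟨v, hv⟩
    · rw [hσN v hv]
      have := hfadj' (g v hv)
      rw [hg v hv] at this
      exact this.symm
  refine ⟨σ, hinv, hadj, ?_⟩
  intro v a b hva hvb
  by_contra hab
  obtain ⟨I, hI, hsub⟩ := exists_maximal G {a, b} (by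
    intro x hx y hy hxy hadj'
    rw [mem_coe, mem_insert, mem_singleton] at hx hy
    rcases hx with rfl | rfl <;> rcases hy with rfl | rfl
    · exact hxy rfl
    · exact hab hadj'
    · exact hab hadj'.symm
    · exact hxy rfl)
  have haI : a ∈ I := hsub (mem_insert_self _ _)
  have hbI : b ∈ I := hsub (mem_insert_of_mem (mem_singleton_self _))
  have hvI : v ∉ I := fun hv => hI.1 (mem_coe.2 hv) (mem_coe.2 haI) hva.ne hva
  have hσvI : σ v ∉ I := fun hv => hI.1 (mem_coe.2 hv) (mem_coe.2 hbI) hvb.ne hvb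
  -- `I` and `σ(I)` are disjoint and miss `v`
  have hinj : Function.Injective σ := fun x y hxy => by
    rw [← hinv x, ← hinv y, hxy]
  have hdisj : Disjoint I (I.image σ) := by
    rw [disjoint_left]
    intro x hx hx'
    rw [mem_image] at hx'
    obtain ⟨y, hy, rfl⟩ := hx'
    exact hI.1 (mem_coe.2 hy) (mem_coe.2 hx) (hadj y).ne (hadj y)
  have hsub2 : I ∪ I.image σ ⊆ univ.erase v := by
    intro x hx
    rw [mem_erase]
    refine ⟨?_, mem_univ _⟩
    rintro rfl
    rw [mem_union, mem_image] at hx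
    rcases hx with hx | ⟨y, hy, hyx⟩
    · exact hvI hx
    · apply hσvI
      rw [← hyx, hinv]
      exact hy
  have h1 := card_le_card hsub2
  rw [card_union_of_disjoint hdisj, card_image_of_injective _ hinj,
    card_erase_of_mem (mem_univ _), card_univ, maximal_card G hw I hI] at h1
  have : 0 < Fintype.card V := Fintype.card_pos_iff.2 ⟨v⟩
  omega

/-- Favaron's property is sufficient. -/
theorem veryWellCovered_of_favaron (G : SimpleGraph V) (σ : V → V) (hinv : ∀ v, σ (σ v) = v)
    (hadj : ∀ v, G.Adj v (σ v)) (hP : ∀ v a b, G.Adj v a → G.Adj (σ v) b → G.Adj a b) :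
    IsVeryWellCovered G := by
  classical
  have hinj : Function.Injective σ := fun x y hxy => by
    rw [← hinv x, ← hinv y, hxy]
  have key : ∀ I : Finset V, IsMaximalIndep G I → 2 * I.card = Fintype.card V := by
    intro I hI
    have hdisj : Disjoint I (I.image σ) := by
      rw [disjoint_left]
      intro x hx hx'
      rw [mem_image] at hx'
      obtain ⟨y, hy, rfl⟩ := hx'
      exact hI.1 (mem_coe.2 hy) (mem_coe.2 hx) (hadj y).ne (hadj y)
    have hnbr : ∀ v, v ∉ I → ∃ a ∈ I, G.Adj v a := by
      intro v hv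
      by_contra hcon
      push Not at hcon
      have h1 : G.IsIndepSet ((insert v I : Finset V) : Set V) := by
        intro x hx y hy hxy hadj'
        rw [mem_coe, mem_insert] at hx hy
        rcases hx with rfl | hx <;> rcases hy with rfl | hy
        · exact hxy rfl
        · exact hcon y hy hadj'
        · exact hcon x hx hadj'.symm
        · exact hI.1 (mem_coe.2 hx) (mem_coe.2 hy) hxy hadj'
      have h2 := hI.2 _ h1 (subset_insert _ _)
      exact hv (h2 ▸ mem_insert_self v I)
    have hun : I ∪ I.image σ = univ := by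
      rw [eq_univ_iff_forall]
      intro v
      rw [mem_union, mem_image]
      by_contra hcon
      push Not at hcon
      have h1 : σ v ∉ I := fun h => hcon.2 _ h (hinv v)
      obtain ⟨a, ha, hva⟩ := hnbr v hcon.1
      obtain ⟨b, hb, hvb⟩ := hnbr (σ v) h1
      have := hP v a b hva hvb
      exact hI.1 (mem_coe.2 ha) (mem_coe.2 hb) this.ne this
    have := card_union_of_disjoint hdisj
    rw [hun, card_univ, card_image_of_injective _ hinj] at this
    omega
  have hwc : IsWellCovered G := by
    intro S T hS hT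
    have h1 := key S hS
    have h2 := key T hT
    omega
  refine ⟨fun v => ⟨σ v, hadj v⟩, hwc, ?_⟩
  obtain ⟨S, hS, -⟩ := exists_maximal G ∅ (by simp)
  rw [← maximal_card G hwc S hS, key S hS]

/-- Every jet graph of a very well covered graph is very well covered. -/
theorem result (V : Type*) [Fintype V] (G : SimpleGraph V) (h : IsVeryWellCovered G) (s : ℕ) :
    IsVeryWellCovered (jets G s) := by
  obtain ⟨σ, hinv, hadj, hP⟩ := exists_favaron G h
  refine veryWellCovered_of_favaron (jets G s) (fun x => (σ x.1, Fin.rev x.2)) ?_ ?_ ?_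
  · rintro ⟨v, i⟩
    simp [hinv]
  · rintro ⟨v, i⟩
    refine ⟨hadj v, ?_⟩
    have : (i : ℕ) ≤ s := by omega
    simp only [Fin.val_rev]
    omega
  · rintro ⟨v, i⟩ ⟨a, j⟩ ⟨b, k⟩ ⟨h1, h2⟩ ⟨h3, h4⟩
    refine ⟨hP v a b h1 h3, ?_⟩
    simp only [Fin.val_rev] at h2 h4 ⊢
    have := i.2
    omega

end Pool.Agent.Results.MP_26e8bc_co.JetsVeryWellCovered
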